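import Pool.Agent.Helper8.VT.Defs

/-!
# Threshold circuits with unbounded weights: the voters

The votes of a voter are arbitrary real numbers (the weight of the voter in the top gate is
included). Readers are the decision trees with `B` adaptive probes of `VT/Defs.lean`. The other
voters are arbitrary functions of a few additive threshold gates.
-/

set_option autoImplicit false

namespace Pool.Agent.Helper8.UV

open Pool.Agent.Helper22.ETModel Pool.Agent.Helper8.VT

/-- `H` is an arbitrary real function of `d` additive threshold gates with together at most `W`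
wires: for all flags and every gate `s` there are a set `K s` of cells, arbitrary real functions
`g s p` of the weight in the cell `p` and a real threshold `θ s`; the gate `s` is on if
`θ s ≤ ∑ p ∈ K s, g s p (w p)`; the number of wires is the sum of the sizes of the sets `K s`. -/
def IsJunta {n : ℕ} (d W : ℕ) (H : Inst n → ℝ) : Prop :=
  ∃ (K : Flags n → Fin d → Finset (Fin n × Fin n))
    (g : Flags n → Fin d → Fin n × Fin n → ℤ → ℝ) (θ : Flags n → Fin d → ℝ)
    (F : Flags n → (Fin d → Bool) → ℝ), (∀ f, ∑ s, (K f s).card ≤ W) ∧ ∀ I : Inst n, I.Valid →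
      H I = F I.flag fun s =>
        decide (θ I.flag s ≤ ∑ p ∈ K I.flag s, g I.flag s p (I.wt p.1 p.2))

/-- `κ` is the price of the voter `H`: `0` for a voter that does not depend on the weights,
`B ^ (3/2)` for a reader with `B` adaptive probes and arbitrary real outputs, `√d * W` for a
function of `d` additive threshold gates with `W` wires. -/
def Price {n : ℕ} (H : Inst n → ℝ) (κ : ℝ) : Prop :=
  (κ = 0 ∧ ∃ F : Flags n → ℝ, ∀ I : Inst n, I.Valid → H I = F I.flag) ∨
    (∃ B : ℕ, 1 ≤ B ∧ IsProbe B H ∧ κ = (B : ℝ) ^ (3 / 2 : ℝ)) ∨
    ∃ d W : ℕ, 1 ≤ d ∧ 1 ≤ W ∧ IsJunta d W H ∧ κ = Real.sqrt d * W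

open Classical in
/-- The random circuit `H`, with the finite probability space `Ω` (uniform law), is correct on `I`
with probability at least `19/20`. The circuit accepts if the sum of the votes is positive. -/
def Decides {n : ℕ} {Ω : Type} [Fintype Ω] {ι : Type} [Fintype ι] (H : Ω → ι → Inst n → ℝ)
    (I : Inst n) : Prop :=
  19 * Fintype.card Ω ≤
    20 * (Finset.univ.filter fun ω : Ω => (0 < ∑ s, H ω s I ↔ I.Yes)).card

end Pool.Agent.Helper8.UV
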