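import Pool.Agent.Helper8.VT.InstL

/-!
The random structure: two triangles with one common edge, two values for each of the five weights.
-/

set_option autoImplicit false

open Finset
open scoped BigOperators

namespace Pool.Agent.Helper8.UV

open Pool.Agent.Helper8.VT

/-- The sign of an index. -/
def sg (p : Bool) : ℝ := if p then -1 else 1

/-- Mixed third difference. -/
def D3 {V : Type} (F : V → V → V → ℝ) (x a b : Bool → V) : ℝ :=
  ∑ p : Bool, ∑ q : Bool, ∑ r : Bool, sg p * sg q * sg r * F (x p) (a q) (b r)

variable {m Q : ℕ}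

/-- The value of `G` after replacing the five weights of the triangles `(i, j, k)` and
`(i, j, k')`. -/
def F5 (G : Cfg m Q → Cfg m Q → Cfg m Q → ℝ) (i j k k' : Fin m) (X Y Z : Cfg m Q)
    (x a b a' b' : ZMod Q) : ℝ :=
  G (Function.update X (i, j) x) (Function.update (Function.update Y (j, k) a) (j, k') a')
    (Function.update (Function.update Z (k, i) b) (k', i) b')

/-- The third values of the first triangle: `x1 + a_r + b_(1-r) = 0`. -/
def vb (x a : Bool → ZMod Q) (r : Bool) : ZMod Q := -x true - a (!r)

/-- The third values of the second triangle: `x0 + a'_r + b'_r = 0`. -/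
def vb' (x a' : Bool → ZMod Q) (r : Bool) : ZMod Q := -x false - a' r

/-- Some mixed third difference of `G` on the triangle `(i, j, k)` is not zero. -/
def ev (G : Cfg m Q → Cfg m Q → Cfg m Q → ℝ) (i j k k' : Fin m) (X Y Z : Cfg m Q)
    (x a a' : Bool → ZMod Q) : Prop :=
  ∃ s t : Bool, D3 (fun u v w => F5 G i j k k' X Y Z u v w (a' s) (vb' x a' t)) x a (vb x a) ≠ 0

open Classical in
/-- The capacity: the sum over all pairs of triangles with a common edge of the first kind of the
probabilities of `ev`. -/
noncomputable def cap [NeZero Q] (G : Cfg m Q → Cfg m Q → Cfg m Q → ℝ) : ℝ :=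
  ∑ i, ∑ j, ∑ k, ∑ k' ∈ univ.erase k, 𝔼 X, 𝔼 Y, 𝔼 Z, 𝔼 x : Bool → ZMod Q,
    𝔼 a : Bool → ZMod Q, 𝔼 a' : Bool → ZMod Q,
      if ev G i j k k' X Y Z x a a' then (1 : ℝ) else 0

theorem sg_not (p : Bool) : sg (!p) = - sg p := by
  cases p <;> simp [sg]

theorem D3_not_x {V : Type} (F : V → V → V → ℝ) (x a b : Bool → V) :
    D3 F (fun p => x (!p)) a b = - D3 F x a b := by
  simp only [D3, Fintype.sum_bool, Bool.not_true, Bool.not_false, sg]
  simp only [if_true, Bool.false_eq_true, if_false]
  ring

theorem D3_not_a {V : Type} (F : V → V → V → ℝ) (x a b : Bool → V) :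
    D3 F x (fun p => a (!p)) b = - D3 F x a b := by
  simp only [D3, Fintype.sum_bool, Bool.not_true, Bool.not_false, sg]
  simp only [if_true, Bool.false_eq_true, if_false]
  ring

theorem D3_sum {V ι : Type} [Fintype ι] (F : ι → V → V → V → ℝ) (x a b : Bool → V) :
    D3 (fun u v w => ∑ s, F s u v w) x a b = ∑ s, D3 (F s) x a b := by
  simp only [D3, Fintype.sum_bool, Finset.mul_sum, Finset.sum_add_distrib]

/-- The identity for two triangles with a common edge: a function that is positive at the eight
yes-vertices and at most zero at the eight no-vertices has a mixed third difference on one of the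
two triangles which is not zero. -/
theorem R3 {V : Type} (Φ : V → V → V → V → V → ℝ) (x a b a' b' : Bool → V)
    (hno0 : ∀ q s, Φ (x false) (a q) (b (!q)) (a' s) (b' (!s)) ≤ 0)
    (hno1 : ∀ q s, Φ (x true) (a q) (b q) (a' s) (b' s) ≤ 0)
    (hyes0 : ∀ q s, 0 < Φ (x false) (a q) (b q) (a' s) (b' s))
    (hyes1 : ∀ q s, 0 < Φ (x true) (a q) (b (!q)) (a' s) (b' (!s))) :
    (∃ s t, D3 (fun u v w => Φ u v w (a' s) (b' t)) x a b ≠ 0) ∨
      ∃ q r, D3 (fun u v w => Φ u (a q) (b r) v w) x a' b' ≠ 0 := by
  by_contra hcon
  push Not at hcon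
  obtain ⟨h1, h2⟩ := hcon
  have e1 := h1 true true
  have e2 := h1 true false
  have e3 := h1 false true
  have e4 := h1 false false
  have e5 := h2 true true
  have e6 := h2 true false
  have e7 := h2 false true
  have e8 := h2 false false
  simp only [D3, Fintype.sum_bool, sg, if_true, Bool.false_eq_true, if_false]
    at e1 e2 e3 e4 e5 e6 e7 e8
  have n1 := hno0 true true
  have n2 := hno0 true false
  have n3 := hno0 false true
  have n4 := hno0 false false
  have n5 := hno1 true true
  have n6 := hno1 true false
  have n7 := hno1 false true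
  have n8 := hno1 false false
  have y1 := hyes0 true true
  have y2 := hyes0 true false
  have y3 := hyes0 false true
  have y4 := hyes0 false false
  have y5 := hyes1 true true
  have y6 := hyes1 true false
  have y7 := hyes1 false true
  have y8 := hyes1 false false
  simp only [Bool.not_true, Bool.not_false] at n1 n2 n3 n4 y5 y6 y7 y8
  linarith

end Pool.Agent.Helper8.UV
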