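import Pool.Agent.Helper8.UV.Box
import Pool.Agent.Helper5.UV.KR

/-!
Mixed third differences of additive threshold gates: they vanish unless the rest of the sum lies in
one of four intervals whose length is the smallest of the three increments.
-/

set_option autoImplicit false
set_option linter.unusedSectionVars false

open Finset
open scoped BigOperators

namespace Pool.Agent.Helper8.UV

open Pool.Agent.Helper8.VT Pool.Agent.Helper5.UV

section D3
variable {V : Type}

theorem D3_zero_x (F : V → V → V → ℝ) (x a b : Bool → V)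
    (h : ∀ q r, F (x true) (a q) (b r) = F (x false) (a q) (b r)) : D3 F x a b = 0 := by
  simp only [D3, Fintype.sum_bool, h, sg, if_true, Bool.false_eq_true, if_false]
  ring

theorem D3_zero_a (F : V → V → V → ℝ) (x a b : Bool → V)
    (h : ∀ q r, F (x q) (a true) (b r) = F (x q) (a false) (b r)) : D3 F x a b = 0 := by
  simp only [D3, Fintype.sum_bool, h, sg, if_true, Bool.false_eq_true, if_false]
  ring

theorem D3_zero_b (F : V → V → V → ℝ) (x a b : Bool → V)
    (h : ∀ q r, F (x q) (a r) (b true) = F (x q) (a r) (b false)) : D3 F x a b = 0 := by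
  simp only [D3, Fintype.sum_bool, h, sg, if_true, Bool.false_eq_true, if_false]
  ring

/-- The smallest increment. -/
noncomputable def mu (f0 f1 f2 : V → ℝ) (x a b : Bool → V) : ℝ :=
  min (min |f0 (x true) - f0 (x false)| |f1 (a true) - f1 (a false)|) |f2 (b true) - f2 (b false)|

theorem step_eq (θ α β c s u v : ℝ)
    (h : ¬ (θ - s - max u v ≤ c ∧ c < θ - s - max u v + |u - v|)) :
    (if θ ≤ c + u + s then α else β) = if θ ≤ c + v + s then α else β := by
  by_cases h1 : θ ≤ c + u + s <;> by_cases h2 : θ ≤ c + v + s
  · rw [if_pos h1, if_pos h2]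
  · exfalso
    apply h
    have hvu : v < u := by linarith [not_le.1 h2]
    rw [max_eq_left hvu.le, abs_of_pos (by linarith)]
    constructor
    · linarith
    · linarith [not_le.1 h2]
  · exfalso
    apply h
    have hvu : u < v := by linarith [not_le.1 h1]
    rw [max_eq_right hvu.le, abs_of_neg (by linarith)]
    constructor
    · linarith
    · linarith [not_le.1 h1]
  · rw [if_neg h1, if_neg h2]

theorem D3_gate (f0 f1 f2 : V → ℝ) (θ α β : ℝ) (x a b : Bool → V) :
    ∃ t : Bool → Bool → ℝ, ∀ c : ℝ,
      D3 (fun u v w => if θ ≤ c + f0 u + f1 v + f2 w then α else β) x a b ≠ 0 →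
        ∃ q r, t q r ≤ c ∧ c < t q r + mu f0 f1 f2 x a b := by
  set A := |f0 (x true) - f0 (x false)| with hA
  set B := |f1 (a true) - f1 (a false)| with hB
  set C := |f2 (b true) - f2 (b false)| with hC
  have hcases : mu f0 f1 f2 x a b = A ∨ mu f0 f1 f2 x a b = B ∨ mu f0 f1 f2 x a b = C := by
    unfold mu
    rw [← hA, ← hB, ← hC]
    rcases min_choice (min A B) C with h | h
    · rcases min_choice A B with h' | h'
      · left; rw [h, h']
      · right; left; rw [h, h']
    · right; right; exact h
  rcases hcases with h | h | h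
  · refine ⟨fun q r => θ - (f1 (a q) + f2 (b r)) - max (f0 (x true)) (f0 (x false)), ?_⟩
    intro c hD
    by_contra hcon
    push Not at hcon
    apply hD
    apply D3_zero_x
    intro q r
    have h1 := step_eq θ α β c (f1 (a q) + f2 (b r)) (f0 (x true)) (f0 (x false)) (by
      rintro ⟨g1, g2⟩
      have := hcon q r g1
      rw [h] at this
      linarith)
    have e1 : c + f0 (x true) + f1 (a q) + f2 (b r) = c + f0 (x true) + (f1 (a q) + f2 (b r)) := by
      ring
    have e2 : c + f0 (x false) + f1 (a q) + f2 (b r) =
        c + f0 (x false) + (f1 (a q) + f2 (b r)) := by ring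
    simp only [e1, e2]
    exact h1
  · refine ⟨fun q r => θ - (f0 (x q) + f2 (b r)) - max (f1 (a true)) (f1 (a false)), ?_⟩
    intro c hD
    by_contra hcon
    push Not at hcon
    apply hD
    apply D3_zero_a
    intro q r
    have h1 := step_eq θ α β c (f0 (x q) + f2 (b r)) (f1 (a true)) (f1 (a false)) (by
      rintro ⟨g1, g2⟩
      have := hcon q r g1
      rw [h] at this
      linarith)
    have e1 : c + f0 (x q) + f1 (a true) + f2 (b r) = c + f1 (a true) + (f0 (x q) + f2 (b r)) := by
      ring
    have e2 : c + f0 (x q) + f1 (a false) + f2 (b r) =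
        c + f1 (a false) + (f0 (x q) + f2 (b r)) := by ring
    simp only [e1, e2]
    exact h1
  · refine ⟨fun q r => θ - (f0 (x q) + f1 (a r)) - max (f2 (b true)) (f2 (b false)), ?_⟩
    intro c hD
    by_contra hcon
    push Not at hcon
    apply hD
    apply D3_zero_b
    intro q r
    have h1 := step_eq θ α β c (f0 (x q) + f1 (a r)) (f2 (b true)) (f2 (b false)) (by
      rintro ⟨g1, g2⟩
      have := hcon q r g1
      rw [h] at this
      linarith)
    have e1 : c + f0 (x q) + f1 (a r) + f2 (b true) = c + f2 (b true) + (f0 (x q) + f1 (a r)) := by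
      ring
    have e2 : c + f0 (x q) + f1 (a r) + f2 (b false) =
        c + f2 (b false) + (f0 (x q) + f1 (a r)) := by ring
    simp only [e1, e2]
    exact h1

end D3

section
variable {m Q : ℕ} [NeZero Q]

/-- The value of a variable. -/
def wk (X Y Z : Cfg m Q) (v : Key m) : ZMod Q :=
  if v.1 = 0 then X v.2 else if v.1 = 1 then Y v.2 else Z v.2

/-- All variables at once. -/
def keyEquiv (m Q : ℕ) : (Cfg m Q × Cfg m Q × Cfg m Q) ≃ (Key m → ZMod Q) where
  toFun p := wk p.1 p.2.1 p.2.2
  invFun w := (fun e => w (0, e), fun e => w (1, e), fun e => w (2, e))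
  left_inv p := by
    obtain ⟨X, Y, Z⟩ := p
    simp [wk]
  right_inv w := by
    funext v
    obtain ⟨c, e⟩ := v
    fin_cases c <;> simp [wk]

theorem expect_wk (F : (Key m → ZMod Q) → ℝ) :
    𝔼 X : Cfg m Q, 𝔼 Y : Cfg m Q, 𝔼 Z : Cfg m Q, F (wk X Y Z) = 𝔼 w : Key m → ZMod Q, F w := by
  rw [← Fintype.expect_equiv (keyEquiv m Q) (fun p => F (wk p.1 p.2.1 p.2.2)) F (fun p => rfl)]
  rw [← Finset.univ_product_univ, Finset.expect_product]
  refine Finset.expect_congr rfl fun X _ => ?_
  rw [← Finset.univ_product_univ, Finset.expect_product]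

/-- The five planted places. -/
def planted (i j k k' : Fin m) (v : Key m) : Prop :=
  v = (0, (i, j)) ∨ v = (1, (j, k)) ∨ v = (1, (j, k')) ∨ v = (2, (k, i)) ∨ v = (2, (k', i))

instance (i j k k' : Fin m) (v : Key m) : Decidable (planted i j k k' v) := by
  unfold planted; infer_instance

/-- The contributions of the other places. -/
noncomputable def rest (f : Key m → ZMod Q → ℝ) (i j k k' : Fin m) (v : Key m) (u : ZMod Q) : ℝ :=
  if planted i j k k' v then 0 else f v u

theorem sum_split (f : Key m → ZMod Q → ℝ) (i j k k' : Fin m) (hk : k ≠ k') (X Y Z : Cfg m Q)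
    (x a b a' b' : ZMod Q) :
    ∑ v, f v (wk (Function.update X (i, j) x)
      (Function.update (Function.update Y (j, k) a) (j, k') a')
      (Function.update (Function.update Z (k, i) b) (k', i) b') v) =
    (∑ v, rest f i j k k' v (wk X Y Z v) + f (1, (j, k')) a' + f (2, (k', i)) b') +
      f (0, (i, j)) x + f (1, (j, k)) a + f (2, (k, i)) b := by
  classical
  have h1 : ∀ v : Key m, f v (wk (Function.update X (i, j) x)
      (Function.update (Function.update Y (j, k) a) (j, k') a')
      (Function.update (Function.update Z (k, i) b) (k', i) b') v) =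
      rest f i j k k' v (wk X Y Z v) +
      ((if v = (0, (i, j)) then f (0, (i, j)) x else 0) +
      (if v = (1, (j, k)) then f (1, (j, k)) a else 0) +
      (if v = (1, (j, k')) then f (1, (j, k')) a' else 0) +
      (if v = (2, (k, i)) then f (2, (k, i)) b else 0) +
      (if v = (2, (k', i)) then f (2, (k', i)) b' else 0)) := by
    rintro ⟨c, e1, e2⟩
    have hc : c = 0 ∨ c = 1 ∨ c = 2 := by
      have : ∀ c : Fin 3, c = 0 ∨ c = 1 ∨ c = 2 := by decide
      exact this c
    have n10 : (1 : Fin 3) ≠ 0 := by decide
    have n20 : (2 : Fin 3) ≠ 0 := by decide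
    have n21 : (2 : Fin 3) ≠ 1 := by decide
    rcases hc with rfl | rfl | rfl
    · by_cases he : (e1, e2) = (i, j)
      · rw [he]
        simp [rest, planted, wk]
      · have : ¬ (e1 = i ∧ e2 = j) := fun h => he (by rw [h.1, h.2])
        simp [rest, planted, wk, Function.update_of_ne he, this]
    · by_cases he : (e1, e2) = (j, k')
      · rw [he]
        have : ¬ k' = k := fun h => hk h.symm
        simp [rest, planted, wk, this]
      · by_cases he2 : (e1, e2) = (j, k)
        · rw [he2]
          have h3 : ¬ ((j, k) = (j, k')) := fun h => hk (by simpa using h)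
          have h4 : ¬ k = k' := hk
          simp [rest, planted, wk, h4]
        · have g1 : ¬ (e1 = j ∧ e2 = k') := fun h => he (by rw [h.1, h.2])
          have g2 : ¬ (e1 = j ∧ e2 = k) := fun h => he2 (by rw [h.1, h.2])
          simp [rest, planted, wk, Function.update_of_ne he, Function.update_of_ne he2, g1, g2]
    · by_cases he : (e1, e2) = (k', i)
      · rw [he]
        have : ¬ k' = k := fun h => hk h.symm
        simp [rest, planted, wk, this]
      · by_cases he2 : (e1, e2) = (k, i)
        · rw [he2]
          have h4 : ¬ k = k' := hk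
          simp [rest, planted, wk, h4]
        · have g1 : ¬ (e1 = k' ∧ e2 = i) := fun h => he (by rw [h.1, h.2])
          have g2 : ¬ (e1 = k ∧ e2 = i) := fun h => he2 (by rw [h.1, h.2])
          simp [rest, planted, wk, Function.update_of_ne he, Function.update_of_ne he2, g1, g2]
  simp only [h1, Finset.sum_add_distrib, Finset.sum_ite_eq', Finset.mem_univ, if_true]
  ring

end

end Pool.Agent.Helper8.UV
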