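import Pool.Agent.Helper8.UV.Defs
import Pool.Agent.Helper8.UV.GateOne
import Pool.Agent.Helper50.UV.Cap
import Pool.Agent.Helper50.UV.TreeCap

/-!
The capacity of the voters on the placed instances.
-/

set_option autoImplicit false
set_option linter.unusedSectionVars false

open Finset
open scoped BigOperators

namespace Pool.Agent.Helper8.UV

open Pool.Agent.Helper22.ETModel Pool.Agent.Helper8.VT

section
variable {n m Q : ℕ} [NeZero Q]

/-- The weight in a cell as a function of the value of its variable. -/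
def cv (Q : ℕ) (v : Key m) (s : ℕ) (u : ZMod Q) : ℤ :=
  if v.1 = 2 then (u.val : ℤ) - s * Q else (u.val : ℤ)

theorem Wt_eq (X Y Z : Cfg m Q) (a b : Fin n) : Wt X Y Z a b =
    match key m a b with
    | none => 3 * Q
    | some (v, s) => cv Q v s (wk X Y Z v) := by
  unfold Wt
  rcases key m a b with _ | ⟨⟨c, p⟩, s⟩
  · rfl
  · fin_cases c
    · simp [cv, wk]
    · simp [cv, wk]
    · simp [cv, wk]

/-- The contribution of the cell `p` to the variable `v`. -/
def ctr (Q : ℕ) (g : Fin n × Fin n → ℤ → ℝ) (p : Fin n × Fin n) (v : Key m) (u : ZMod Q) : ℝ :=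
  match key m p.1 p.2 with
  | none => 0
  | some (v', s) => if v' = v then g p (cv Q v s u) else 0

/-- The contribution of the cells without a variable. -/
def cst (m Q : ℕ) (g : Fin n × Fin n → ℤ → ℝ) (p : Fin n × Fin n) : ℝ :=
  match key m p.1 p.2 with
  | none => g p (3 * Q)
  | some _ => 0

theorem g_split (g : Fin n × Fin n → ℤ → ℝ) (p : Fin n × Fin n) (X Y Z : Cfg m Q) :
    g p (Wt X Y Z p.1 p.2) = cst m Q g p + ∑ v, ctr Q g p v (wk X Y Z v) := by
  rw [Wt_eq]
  unfold cst ctr
  rcases key m p.1 p.2 with _ | ⟨v, s⟩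
  · simp
  · simp

theorem sum_cells (g : Fin n × Fin n → ℤ → ℝ) (K : Finset (Fin n × Fin n)) (X Y Z : Cfg m Q) :
    ∑ p ∈ K, g p (Wt X Y Z p.1 p.2) =
      (∑ p ∈ K, cst m Q g p) + ∑ v, (∑ p ∈ K, ctr Q g p v (wk X Y Z v)) := by
  rw [Finset.sum_comm, ← Finset.sum_add_distrib]
  exact Finset.sum_congr rfl fun p _ => g_split g p X Y Z

open Classical in
theorem card_nonconst (g : Fin n × Fin n → ℤ → ℝ) (K : Finset (Fin n × Fin n)) :
    (univ.filter fun e : Key m => ∃ u u' : ZMod Q, (∑ p ∈ K, ctr Q g p e u) ≠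
      ∑ p ∈ K, ctr Q g p e u').card ≤ K.card := by
  have h1 : (univ.filter fun e : Key m => ∃ u u' : ZMod Q, (∑ p ∈ K, ctr Q g p e u) ≠
      ∑ p ∈ K, ctr Q g p e u') ⊆ K.biUnion fun p =>
        (match key m p.1 p.2 with
          | none => (∅ : Finset (Key m))
          | some (v, _) => {v}) := by
    intro e he
    rw [mem_filter] at he
    obtain ⟨_, u, u', hne⟩ := he
    rw [mem_biUnion]
    by_contra hcon
    push Not at hcon
    apply hne
    refine Finset.sum_congr rfl fun p hp => ?_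
    have h2 := hcon p hp
    unfold ctr
    rcases hk : key m p.1 p.2 with _ | ⟨v, s⟩
    · rfl
    · rw [hk] at h2
      simp only [mem_singleton] at h2
      simp only
      rw [if_neg (fun h => h2 h.symm), if_neg (fun h => h2 h.symm)]
  refine (Finset.card_le_card h1).trans (Finset.card_biUnion_le.trans ?_)
  calc _ ≤ ∑ p ∈ K, 1 := by
        apply Finset.sum_le_sum
        intro p _
        rcases key m p.1 p.2 with _ | ⟨v, s⟩
        · simp
        · simp
    _ = K.card := by simp

/-- A constant has capacity zero. -/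
theorem cap_const (c : ℝ) : cap (fun _ _ _ : Cfg m Q => c) = 0 := by
  have h1 : ∀ (i j k k' : Fin m) (X Y Z : Cfg m Q) (x a a' : Bool → ZMod Q),
      ¬ ev (fun _ _ _ : Cfg m Q => c) i j k k' X Y Z x a a' := by
    intro i j k k' X Y Z x a a' h
    obtain ⟨s, t, h⟩ := h
    apply h
    simp [D3, F5, sg]
  unfold cap
  simp only [h1, if_false, Finset.expect_const_zero, Finset.sum_const_zero]

/-- The capacity of a voter is at most a constant times `m` times its price. -/
theorem cap_le_price (hQn : 3 * Q ≤ n ^ 300) (H : Inst n → ℝ) (κ : ℝ) (hκ : Price H κ) :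
    cap (fun X Y Z : Cfg m Q => H (mkInst n X Y Z)) ≤ 192 * m * κ := by
  classical
  rcases hκ with ⟨rfl, F, hF⟩ | ⟨B, hB, ⟨t, ht⟩, rfl⟩ | ⟨d, W, hd, hW, ⟨K, g, θ, F, hK, hH⟩, rfl⟩
  · have h1 : (fun X Y Z : Cfg m Q => H (mkInst n X Y Z)) = fun _ _ _ => F (fl n) := by
      funext X Y Z
      exact hF _ (mkInst_valid hQn X Y Z)
    rw [h1, cap_const]
    simp
  · have h1 : (fun X Y Z : Cfg m Q => H (mkInst n X Y Z)) =
        fun X Y Z => (t (fl n)).eval ((place n m Q).W X Y Z) := by
      funext X Y Z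
      exact ht _ (mkInst_valid hQn X Y Z)
    rw [h1]
    refine (Pool.Agent.Helper50.UV.tree_cap (place n m Q) (t (fl n))).trans (le_of_eq ?_)
    congr 1
    rw [show (3 / 2 : ℝ) = 3 * (1 / 2) by norm_num, Real.rpow_mul (by positivity),
      ← Real.sqrt_eq_rpow]
    norm_num
  · have h1 : ∀ X Y Z : Cfg m Q, H (mkInst n X Y Z) =
        F (fl n) (fun s => decide (θ (fl n) s - (∑ p ∈ K (fl n) s, cst m Q (g (fl n) s) p) ≤
          ∑ v, (fun v u => ∑ p ∈ K (fl n) s, ctr Q (g (fl n) s) p v u) v (wk X Y Z v))) := by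
      intro X Y Z
      rw [hH _ (mkInst_valid hQn X Y Z)]
      show F (fl n) _ = _
      congr 1
      funext s
      have h2 := sum_cells (m := m) (Q := Q) (g (fl n) s) (K (fl n) s) X Y Z
      apply decide_eq_decide.2
      show θ (fl n) s ≤ ∑ p ∈ K (fl n) s, g (fl n) s p (Wt X Y Z p.1 p.2) ↔ _
      rw [h2]
      constructor
      · intro h; linarith
      · intro h; linarith
    have h3 := Pool.Agent.Helper50.UV.gates_cap d
      (fun s v u => ∑ p ∈ K (fl n) s, ctr Q (g (fl n) s) p v u)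
      (fun s => θ (fl n) s - (∑ p ∈ K (fl n) s, cst m Q (g (fl n) s) p)) (F (fl n))
      (fun X Y Z : Cfg m Q => H (mkInst n X Y Z)) h1 (fun s => (K (fl n) s).card) (fun s => by
        exact (card_nonconst (m := m) (Q := Q) (g (fl n) s) (K (fl n) s)))
    refine h3.trans ?_
    have h4 : (∑ s, (((K (fl n) s).card : ℕ) : ℝ)) ≤ W := by
      exact_mod_cast hK (fl n)
    have h5 : 0 ≤ Real.sqrt d := Real.sqrt_nonneg _
    have h6 : (0 : ℝ) ≤ m := Nat.cast_nonneg m
    have h7 : (0 : ℝ) ≤ ∑ s, (((K (fl n) s).card : ℕ) : ℝ) :=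
      Finset.sum_nonneg fun _ _ => Nat.cast_nonneg _
    calc 80 * m * (Real.sqrt d * ∑ s, (((K (fl n) s).card : ℕ) : ℝ))
        ≤ 192 * m * (Real.sqrt d * ∑ s, (((K (fl n) s).card : ℕ) : ℝ)) := by
          apply mul_le_mul_of_nonneg_right _ (mul_nonneg h5 h7)
          linarith
      _ ≤ 192 * m * (Real.sqrt d * W) := by
          apply mul_le_mul_of_nonneg_left _ (by positivity)
          exact mul_le_mul_of_nonneg_left h4 h5

end

end Pool.Agent.Helper8.UV
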