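import Pool.Agent.Helper8.UV.Defs

/-!
# Threshold circuits with unbounded weights: the statement (frame)
-/

set_option autoImplicit false

namespace Pool.Agent.Helper8.UV

open Pool.Agent.Helper22.ETModel Pool.Agent.Helper8.VT

/-- The lower bound: the average cost of a random circuit that is correct with probability at
least `19/20` on every valid complete tripartite instance is at least `c n ^ 3`. -/
def LowerStatement : Prop :=
  ∀ n : ℕ, 3 ≤ n → ∀ (Ω ι : Type) [Fintype Ω] [Nonempty Ω] [Fintype ι]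
    (H : Ω → ι → Inst n → ℝ) (κ : Ω → ι → ℝ), (∀ ω s, Price (H ω s) (κ ω s)) →
    (∀ I : Inst n, I.Valid → Tripartite I → Decides H I) →
    (n : ℝ) ^ 3 ≤ 2 ^ 24 * ((∑ ω, ∑ s, κ ω s) / Fintype.card Ω)

/-- The upper bound with readers. -/
def ReaderStatement : Prop :=
  ∀ n B : ℕ, 3 ≤ B → B ≤ n ^ 2 → ∃ (N : ℕ) (H : Fin N → Inst n → ℝ),
    (N : ℝ) * (B : ℝ) ^ (3 / 2 : ℝ) ≤ 2 ^ 9 * (n : ℝ) ^ 3 ∧ (∀ r, IsProbe B (H r)) ∧
    ∀ I : Inst n, 0 < ∑ r, H r I ↔ I.Yes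

/-- The upper bound with single gates of fan-in three. -/
def GateStatement : Prop :=
  ∀ n : ℕ, ∃ (N : ℕ) (H : Fin N → Inst n → ℝ), N ≤ 2 * n ^ 3 ∧ (∀ r, IsJunta 1 3 (H r)) ∧
    ∀ I : Inst n, 0 < ∑ r, H r I ↔ I.Yes

/-- The upper bound with functions of many gates: for every `s`, voters that are functions of
`d = s * (302 * (log n + 1))` gates with together `d` wires, of total price
`N * √d * d ≤ 2 ^ 9 * n ^ 3 * (302 * (log n + 1)) ^ (3/2)`. -/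
def JuntaStatement : Prop :=
  ∀ n s : ℕ, 3 ≤ s → s ≤ n ^ 2 → ∃ (N : ℕ) (H : Fin N → Inst n → ℝ),
    (N : ℝ) * (s : ℝ) ^ (3 / 2 : ℝ) ≤ 2 ^ 9 * (n : ℝ) ^ 3 ∧
    (∀ r, IsJunta (s * (302 * (Nat.log 2 n + 1))) (s * (302 * (Nat.log 2 n + 1))) (H r)) ∧
    ∀ I : Inst n, 0 < ∑ r, H r I ↔ I.Yes

end Pool.Agent.Helper8.UV
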