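import Pool.Agent.Helper8.UV.Placed
import Pool.Agent.Helper8.UV.Statement
import Pool.Agent.Helper5.UV.Numeric
import Pool.Agent.Helper50.UV.Swap

/-!
The lower bound for random threshold circuits with unbounded weights.
-/

set_option autoImplicit false
set_option linter.unusedSectionVars false

open Finset
open scoped BigOperators

namespace Pool.Agent.Helper8.UV

open Pool.Agent.Helper22.ETModel Pool.Agent.Helper8.VT Pool.Agent.Helper50.UV
open Pool.Agent.Helper8.VS (ind ind_nonneg ind_le_one ind_true ind_false)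

section
variable {m Q : ℕ} [NeZero Q]

/-- The expectation over the structure. -/
noncomputable def EE (F : Cfg m Q → Cfg m Q → Cfg m Q → (Bool → ZMod Q) → (Bool → ZMod Q) →
    (Bool → ZMod Q) → ℝ) : ℝ :=
  𝔼 X, 𝔼 Y, 𝔼 Z, 𝔼 x : Bool → ZMod Q, 𝔼 a : Bool → ZMod Q, 𝔼 a' : Bool → ZMod Q, F X Y Z x a a'

theorem EE_mono (F F' : Cfg m Q → Cfg m Q → Cfg m Q → (Bool → ZMod Q) → (Bool → ZMod Q) →
    (Bool → ZMod Q) → ℝ) (h : ∀ X Y Z x a a', F X Y Z x a a' ≤ F' X Y Z x a a') :
    EE F ≤ EE F' :=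
  Finset.expect_le_expect fun X _ => Finset.expect_le_expect fun Y _ =>
    Finset.expect_le_expect fun Z _ => Finset.expect_le_expect fun x _ =>
      Finset.expect_le_expect fun a _ => Finset.expect_le_expect fun a' _ => h X Y Z x a a'

theorem EE_add (F F' : Cfg m Q → Cfg m Q → Cfg m Q → (Bool → ZMod Q) → (Bool → ZMod Q) →
    (Bool → ZMod Q) → ℝ) :
    EE (fun X Y Z x a a' => F X Y Z x a a' + F' X Y Z x a a') = EE F + EE F' := by
  unfold EE
  simp only [Finset.expect_add_distrib]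

theorem EE_sum {ι : Type} (s : Finset ι) (F : ι → Cfg m Q → Cfg m Q → Cfg m Q →
    (Bool → ZMod Q) → (Bool → ZMod Q) → (Bool → ZMod Q) → ℝ) :
    EE (fun X Y Z x a a' => ∑ r ∈ s, F r X Y Z x a a') = ∑ r ∈ s, EE (F r) := by
  unfold EE
  simp only [Finset.expect_sum_comm]

theorem EE_smul (c : ℝ) (F : Cfg m Q → Cfg m Q → Cfg m Q → (Bool → ZMod Q) → (Bool → ZMod Q) →
    (Bool → ZMod Q) → ℝ) :
    EE (fun X Y Z x a a' => c * F X Y Z x a a') = c * EE F := by
  unfold EE
  simp only [← Finset.mul_expect]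

theorem EE_const (c : ℝ) : EE (fun _ _ _ _ _ _ : _ => c : Cfg m Q → Cfg m Q → Cfg m Q →
    (Bool → ZMod Q) → (Bool → ZMod Q) → (Bool → ZMod Q) → ℝ) = c := by
  unfold EE
  simp only [Finset.expect_const Finset.univ_nonempty]

/-- One of the sixteen instances. -/
def vtx (n : ℕ) (i j k k' : Fin m) (X Y Z : Cfg m Q) (x a a' : Bool → ZMod Q)
    (v : Bool × Bool × Bool × Bool) : Inst n :=
  mkInst n (Function.update X (i, j) (x v.1))
    (Function.update (Function.update Y (j, k) (a v.2.2.1)) (j, k') (a' v.2.2.2))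
    (Function.update (Function.update Z (k, i) (vb x a (if v.2.1 then v.2.2.1 else !v.2.2.1)))
      (k', i) (vb' x a' (if v.2.1 then v.2.2.2 else !v.2.2.2)))

variable {n : ℕ} {ι : Type} [Fintype ι]

/-- The circuit is correct on the instance. -/
def Corr (H : ι → Inst n → ℝ) (I : Inst n) : Prop := 0 < ∑ s, H s I ↔ I.Yes

/-- A circuit that is correct on the sixteen instances of a good structure has a voter with a
non-zero third difference. -/
theorem exists_voter (h9 : 9 * m ≤ n) (H : ι → Inst n → ℝ) (i j k k' : Fin m) (hk : k ≠ k')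
    (X Y Z : Cfg m Q) (x a a' : Bool → ZMod Q) (hbad : ¬ BadS i j k k' X Y Z x a a')
    (hc : ∀ v, Corr H (vtx n i j k k' X Y Z x a a' v)) :
    ∃ s, ev (fun X Y Z : Cfg m Q => H s (mkInst n X Y Z)) i j k k' X Y Z x a a' ∨
      ev2 (fun X Y Z : Cfg m Q => H s (mkInst n X Y Z)) i j k k' X Y Z x a a' := by
  set Φ : ZMod Q → ZMod Q → ZMod Q → ZMod Q → ZMod Q → ℝ := fun u v w v' w' =>
    ∑ s, F5 (fun X Y Z : Cfg m Q => H s (mkInst n X Y Z)) i j k k' X Y Z u v w v' w' with hΦ
  have hno0 : ∀ q s, Φ (x false) (a q) (vb x a (!q)) (a' s) (vb' x a' (!s)) ≤ 0 := by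
    intro q s
    have h1 := hc (false, false, q, s)
    by_contra hcon
    push Not at hcon
    have h2 := h1.1 (by simpa [hΦ, F5, vtx] using hcon)
    apply hbad
    exact ⟨q, s, Or.inl (by simpa [vtx] using zero_of_yes _ _ _ h2)⟩
  have hno1 : ∀ q s, Φ (x true) (a q) (vb x a q) (a' s) (vb' x a' s) ≤ 0 := by
    intro q s
    have h1 := hc (true, true, q, s)
    by_contra hcon
    push Not at hcon
    have h2 := h1.1 (by simpa [hΦ, F5, vtx] using hcon)
    apply hbad
    exact ⟨q, s, Or.inr (by simpa [vtx] using zero_of_yes _ _ _ h2)⟩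
  have hyes0 : ∀ q s, 0 < Φ (x false) (a q) (vb x a q) (a' s) (vb' x a' s) := by
    intro q s
    have h1 := hc (false, true, q, s)
    have h2 : (vtx n i j k k' X Y Z x a a' (false, true, q, s) : Inst n).Yes := by
      apply yes_of_zero h9
      refine ⟨i, j, k', ?_⟩
      simp only [Function.update_self]
      unfold vb'
      simp only [if_true]
      ring
    have h3 := h1.2 h2
    simpa [hΦ, F5, vtx] using h3
  have hyes1 : ∀ q s, 0 < Φ (x true) (a q) (vb x a (!q)) (a' s) (vb' x a' (!s)) := by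
    intro q s
    have h1 := hc (true, false, q, s)
    have h2 : (vtx n i j k k' X Y Z x a a' (true, false, q, s) : Inst n).Yes := by
      apply yes_of_zero h9
      refine ⟨i, j, k, ?_⟩
      have g1 : ((j, k) : Fin m × Fin m) ≠ (j, k') := fun h => hk (by simpa using h)
      have g2 : ((k, i) : Fin m × Fin m) ≠ (k', i) := fun h => hk (by simpa using h)
      rw [Function.update_of_ne g1, Function.update_of_ne g2]
      simp only [Function.update_self]
      unfold vb
      simp only [Bool.false_eq_true, if_false, Bool.not_not]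
      ring
    have h3 := h1.2 h2
    simpa [hΦ, F5, vtx] using h3
  rcases R3 Φ x a (vb x a) a' (vb' x a') hno0 hno1 hyes0 hyes1 with ⟨s, t, hD⟩ | ⟨q, r, hD⟩
  · rw [hΦ, D3_sum (fun r u v w => F5 (fun X Y Z : Cfg m Q => H r (mkInst n X Y Z)) i j k k' X Y Z
      u v w (a' s) (vb' x a' t))] at hD
    obtain ⟨r, _, hr⟩ := Finset.exists_ne_zero_of_sum_ne_zero hD
    exact ⟨r, Or.inl ⟨s, t, hr⟩⟩
  · rw [hΦ, D3_sum (fun s u v w => F5 (fun X Y Z : Cfg m Q => H s (mkInst n X Y Z)) i j k k' X Y Z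
      u (a q) (vb x a r) v w)] at hD
    obtain ⟨s, _, hs⟩ := Finset.exists_ne_zero_of_sum_ne_zero hD
    exact ⟨s, Or.inr ⟨q, r, hs⟩⟩

variable {Ω : Type} [Fintype Ω] [Nonempty Ω]

/-- For every structure. -/
theorem struct_bound (h9 : 9 * m ≤ n) (hQn : 3 * Q ≤ n ^ 300) (H : Ω → ι → Inst n → ℝ)
    (hdec : ∀ I : Inst n, I.Valid → Tripartite I → Decides H I) (i j k k' : Fin m) (hk : k ≠ k')
    (X Y Z : Cfg m Q) (x a a' : Bool → ZMod Q) :
    (Fintype.card Ω : ℝ) / 5 ≤ (∑ ω, ∑ s,
      (ind (ev (fun X Y Z : Cfg m Q => H ω s (mkInst n X Y Z)) i j k k' X Y Z x a a') +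
        ind (ev2 (fun X Y Z : Cfg m Q => H ω s (mkInst n X Y Z)) i j k k' X Y Z x a a'))) +
      Fintype.card Ω * ind (BadS i j k k' X Y Z x a a') := by
  classical
  set S := ∑ ω, ∑ s,
      (ind (ev (fun X Y Z : Cfg m Q => H ω s (mkInst n X Y Z)) i j k k' X Y Z x a a') +
        ind (ev2 (fun X Y Z : Cfg m Q => H ω s (mkInst n X Y Z)) i j k k' X Y Z x a a')) with hS
  have hS0 : 0 ≤ S := Finset.sum_nonneg fun ω _ => Finset.sum_nonneg fun s _ =>
    add_nonneg (ind_nonneg _) (ind_nonneg _)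
  have hΩ : (0 : ℝ) < Fintype.card Ω := by exact_mod_cast Fintype.card_pos
  by_cases hbad : BadS i j k k' X Y Z x a a'
  · rw [ind_true hbad]
    linarith
  · rw [ind_false hbad, mul_zero, add_zero]
    set Wr : (Bool × Bool × Bool × Bool) → Finset Ω := fun v =>
      univ.filter fun ω => ¬ Corr (H ω) (vtx n i j k k' X Y Z x a a' v) with hW
    have hWc : ∀ v, 20 * (Wr v).card ≤ Fintype.card Ω := by
      intro v
      have h1 := hdec (vtx n i j k k' X Y Z x a a' v) (mkInst_valid hQn _ _ _)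
        (mkInst_tripartite _ _ _)
      unfold Decides at h1
      have h2 := Finset.card_filter_add_card_filter_not (s := (univ : Finset Ω))
        (fun ω => Corr (H ω) (vtx n i j k k' X Y Z x a a' v))
      rw [Finset.card_univ] at h2
      have h3 : (univ.filter fun ω : Ω => (0 < ∑ s, H ω s (vtx n i j k k' X Y Z x a a' v) ↔
          (vtx n i j k k' X Y Z x a a' v).Yes)) =
          univ.filter fun ω => Corr (H ω) (vtx n i j k k' X Y Z x a a' v) := by
        apply Finset.filter_congr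
        intro ω _
        rfl
      have h4 : (univ.filter fun ω : Ω => (0 < ∑ s, H ω s (vtx n i j k k' X Y Z x a a' v) ↔
          (vtx n i j k k' X Y Z x a a' v).Yes)).card =
          (univ.filter fun ω => Corr (H ω) (vtx n i j k k' X Y Z x a a' v)).card := by
        rw [h3]
      have h5 : (Wr v).card + (univ.filter fun ω =>
          Corr (H ω) (vtx n i j k k' X Y Z x a a' v)).card = Fintype.card Ω := by
        rw [← h2, hW]
        ring
      have h6 : 19 * Fintype.card Ω ≤ 20 * (univ.filter fun ω =>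
          Corr (H ω) (vtx n i j k k' X Y Z x a a' v)).card := by
        rw [← h4]
        convert h1
      omega
    have hU : 20 * (univ.biUnion Wr).card ≤ 16 * Fintype.card Ω := by
      have h1 : (univ.biUnion Wr).card ≤ ∑ v, (Wr v).card := Finset.card_biUnion_le
      have h2 : 20 * ∑ v, (Wr v).card ≤ ∑ v : Bool × Bool × Bool × Bool, Fintype.card Ω := by
        rw [Finset.mul_sum]
        exact Finset.sum_le_sum fun v _ => hWc v
      have h3 : ∑ v : Bool × Bool × Bool × Bool, Fintype.card Ω = 16 * Fintype.card Ω := by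
        rw [Finset.sum_const, Finset.card_univ, smul_eq_mul]
        rfl
      omega
    have hgood : ∀ ω ∉ univ.biUnion Wr, (1 : ℝ) ≤ ∑ s,
        (ind (ev (fun X Y Z : Cfg m Q => H ω s (mkInst n X Y Z)) i j k k' X Y Z x a a') +
        ind (ev2 (fun X Y Z : Cfg m Q => H ω s (mkInst n X Y Z)) i j k k' X Y Z x a a')) := by
      intro ω hω
      obtain ⟨s, hs⟩ := exists_voter h9 (H ω) i j k k' hk X Y Z x a a' hbad (by
        intro v
        by_contra hcon
        apply hω
        rw [mem_biUnion]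
        exact ⟨v, mem_univ _, mem_filter.2 ⟨mem_univ _, hcon⟩⟩)
      refine le_trans ?_ (Finset.single_le_sum (f := fun s =>
        (ind (ev (fun X Y Z : Cfg m Q => H ω s (mkInst n X Y Z)) i j k k' X Y Z x a a') +
        ind (ev2 (fun X Y Z : Cfg m Q => H ω s (mkInst n X Y Z)) i j k k' X Y Z x a a')))
        (fun s _ => add_nonneg (ind_nonneg _) (ind_nonneg _)) (Finset.mem_univ s))
      rcases hs with hs | hs
      · rw [ind_true hs]
        linarith [ind_nonneg (ev2 (fun X Y Z : Cfg m Q => H ω s (mkInst n X Y Z)) i j k k' X Y Z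
          x a a')]
      · rw [ind_true hs]
        linarith [ind_nonneg (ev (fun X Y Z : Cfg m Q => H ω s (mkInst n X Y Z)) i j k k' X Y Z
          x a a')]
    have hcard : ((univ.filter fun ω => ω ∉ univ.biUnion Wr).card : ℝ) ≤ S := by
      calc ((univ.filter fun ω => ω ∉ univ.biUnion Wr).card : ℝ)
          = ∑ ω ∈ univ.filter (fun ω => ω ∉ univ.biUnion Wr), (1 : ℝ) := by simp
        _ ≤ ∑ ω ∈ univ.filter (fun ω => ω ∉ univ.biUnion Wr), ∑ s,
            (ind (ev (fun X Y Z : Cfg m Q => H ω s (mkInst n X Y Z)) i j k k' X Y Z x a a') +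
            ind (ev2 (fun X Y Z : Cfg m Q => H ω s (mkInst n X Y Z)) i j k k' X Y Z x a a')) :=
            Finset.sum_le_sum fun ω hω => hgood ω (mem_filter.1 hω).2
        _ ≤ S := by
            rw [hS]
            exact Finset.sum_le_sum_of_subset_of_nonneg (Finset.filter_subset _ _)
              (fun ω _ _ => Finset.sum_nonneg fun s _ => add_nonneg (ind_nonneg _) (ind_nonneg _))
    have hc2 : (univ.filter fun ω => ω ∉ univ.biUnion Wr).card + (univ.biUnion Wr).card =
        Fintype.card Ω := by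
      have h2 := Finset.card_filter_add_card_filter_not (s := (univ : Finset Ω))
        (fun ω => ω ∈ univ.biUnion Wr)
      rw [Finset.card_univ] at h2
      have h3 : (univ.filter fun ω => ω ∈ univ.biUnion Wr) = univ.biUnion Wr := by
        ext ω; simp
      rw [h3] at h2
      omega
    have hU' : (20 : ℝ) * (univ.biUnion Wr).card ≤ 16 * Fintype.card Ω := by exact_mod_cast hU
    have hc2' : ((univ.filter fun ω => ω ∉ univ.biUnion Wr).card : ℝ) + (univ.biUnion Wr).card =
        Fintype.card Ω := by exact_mod_cast hc2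
    linarith

theorem cap_eq (G : Cfg m Q → Cfg m Q → Cfg m Q → ℝ) : cap G =
    ∑ i, ∑ j, ∑ k, ∑ k' ∈ univ.erase k,
      EE (fun X Y Z x a a' => ind (ev G i j k k' X Y Z x a a')) := by
  unfold cap EE ind
  rfl

theorem cap_eq2 (G : Cfg m Q → Cfg m Q → Cfg m Q → ℝ) : cap G =
    ∑ i, ∑ j, ∑ k, ∑ k' ∈ univ.erase k,
      EE (fun X Y Z x a a' => ind (ev2 G i j k k' X Y Z x a a')) := by
  rw [← cap_swap]
  unfold EE ind
  rfl

theorem pull2 {Ω ι : Type} [Fintype Ω] [Fintype ι] (t : Finset (Fin m)) (f : Fin m → Ω → ι → ℝ) :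
    ∑ x ∈ t, ∑ ω, ∑ s, f x ω s = ∑ ω, ∑ s, ∑ x ∈ t, f x ω s := by
  rw [Finset.sum_comm]
  exact Finset.sum_congr rfl fun ω _ => Finset.sum_comm

/-- The averaged inequality. -/
theorem averaged (h9 : 9 * m ≤ n) (hQn : 3 * Q ≤ n ^ 300) (H : Ω → ι → Inst n → ℝ)
    (κ : Ω → ι → ℝ) (hκ : ∀ ω s, Price (H ω s) (κ ω s))
    (hdec : ∀ I : Inst n, I.Valid → Tripartite I → Decides H I) :
    (m : ℝ) ^ 3 * (m - 1) * (1 / 5 - 8 * m ^ 3 / Q) ≤
      2 * (192 * m * ((∑ ω, ∑ s, κ ω s) / Fintype.card Ω)) := by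
  classical
  have hΩ : (0 : ℝ) < Fintype.card Ω := by exact_mod_cast Fintype.card_pos
  set G : Ω → ι → Cfg m Q → Cfg m Q → Cfg m Q → ℝ := fun ω s X Y Z => H ω s (mkInst n X Y Z)
    with hG
  have h1 : ∀ i j k k' : Fin m, k ≠ k' → (Fintype.card Ω : ℝ) / 5 ≤
      (∑ ω, ∑ s, (EE (fun X Y Z x a a' => ind (ev (G ω s) i j k k' X Y Z x a a')) +
        EE (fun X Y Z x a a' => ind (ev2 (G ω s) i j k k' X Y Z x a a')))) +
      Fintype.card Ω * (8 * m ^ 3 / Q) := by
    intro i j k k' hk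
    have h2 := EE_mono (m := m) (Q := Q) (fun _ _ _ _ _ _ => (Fintype.card Ω : ℝ) / 5)
      (fun X Y Z x a a' => (∑ ω, ∑ s, (ind (ev (G ω s) i j k k' X Y Z x a a') +
        ind (ev2 (G ω s) i j k k' X Y Z x a a'))) +
        Fintype.card Ω * ind (BadS i j k k' X Y Z x a a'))
      (fun X Y Z x a a' => struct_bound h9 hQn H hdec i j k k' hk X Y Z x a a')
    rw [EE_const (m := m) (Q := Q) ((Fintype.card Ω : ℝ) / 5), EE_add (fun X Y Z x a a' => ∑ ω, ∑ s, (ind (ev (G ω s) i j k k' X Y Z x a a') +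
        ind (ev2 (G ω s) i j k k' X Y Z x a a')))
        (fun X Y Z x a a' => Fintype.card Ω * ind (BadS i j k k' X Y Z x a a')), EE_smul] at h2
    have h3 : EE (m := m) (Q := Q) (fun X Y Z x a a' => ∑ ω, ∑ s,
        (ind (ev (G ω s) i j k k' X Y Z x a a') + ind (ev2 (G ω s) i j k k' X Y Z x a a'))) =
        ∑ ω, ∑ s, (EE (fun X Y Z x a a' => ind (ev (G ω s) i j k k' X Y Z x a a')) +
        EE (fun X Y Z x a a' => ind (ev2 (G ω s) i j k k' X Y Z x a a'))) := by
      rw [EE_sum (m := m) (Q := Q) univ (fun ω X Y Z x a a' =>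
        ∑ s, (ind (ev (G ω s) i j k k' X Y Z x a a') + ind (ev2 (G ω s) i j k k' X Y Z x a a')))]
      refine Finset.sum_congr rfl fun ω _ => ?_
      rw [EE_sum (m := m) (Q := Q) (univ : Finset ι) (fun s X Y Z x a a' =>
        (ind (ev (G ω s) i j k k' X Y Z x a a') + ind (ev2 (G ω s) i j k k' X Y Z x a a')))]
      refine Finset.sum_congr rfl fun s _ => ?_
      exact EE_add (fun X Y Z x a a' => ind (ev (G ω s) i j k k' X Y Z x a a'))
        (fun X Y Z x a a' => ind (ev2 (G ω s) i j k k' X Y Z x a a'))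
    rw [h3] at h2
    have h4 : EE (m := m) (Q := Q) (fun X Y Z x a a' => ind (BadS i j k k' X Y Z x a a')) ≤
        8 * (m : ℝ) ^ 3 / Q := by
      have h5 := bad_prob (m := m) (Q := Q) i j hk
      unfold EE ind
      exact h5
    have h6 : (Fintype.card Ω : ℝ) *
        EE (m := m) (Q := Q) (fun X Y Z x a a' => ind (BadS i j k k' X Y Z x a a')) ≤
        Fintype.card Ω * (8 * (m : ℝ) ^ 3 / Q) := mul_le_mul_of_nonneg_left h4 hΩ.le
    linarith
  have h2 : ∑ i : Fin m, ∑ j : Fin m, ∑ k : Fin m, ∑ k' ∈ univ.erase k,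
      ((Fintype.card Ω : ℝ) / 5 - Fintype.card Ω * (8 * m ^ 3 / Q)) ≤
      ∑ i : Fin m, ∑ j : Fin m, ∑ k : Fin m, ∑ k' ∈ univ.erase k,
      (∑ ω, ∑ s, (EE (fun X Y Z x a a' => ind (ev (G ω s) i j k k' X Y Z x a a')) +
        EE (fun X Y Z x a a' => ind (ev2 (G ω s) i j k k' X Y Z x a a')))) := by
    refine Finset.sum_le_sum fun i _ => Finset.sum_le_sum fun j _ => Finset.sum_le_sum fun k _ =>
      Finset.sum_le_sum fun k' hk' => ?_
    have := h1 i j k k' (fun h => (Finset.mem_erase.1 hk').1 h.symm)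
    linarith
  have h3 : ∑ i : Fin m, ∑ j : Fin m, ∑ k : Fin m, ∑ k' ∈ univ.erase k,
      ((Fintype.card Ω : ℝ) / 5 - Fintype.card Ω * (8 * m ^ 3 / Q)) =
      (m : ℝ) ^ 3 * (m - 1) * (1 / 5 - 8 * m ^ 3 / Q) * Fintype.card Ω := by
    simp only [Finset.sum_const, Finset.card_univ, Fintype.card_fin, nsmul_eq_mul,
      Finset.card_erase_of_mem (Finset.mem_univ _)]
    rcases Nat.eq_zero_or_pos m with h0 | h0
    · rw [h0]; simp
    · rw [Nat.cast_sub h0]
      push_cast
      ring
  have h4 : ∑ i : Fin m, ∑ j : Fin m, ∑ k : Fin m, ∑ k' ∈ univ.erase k,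
      (∑ ω, ∑ s, (EE (fun X Y Z x a a' => ind (ev (G ω s) i j k k' X Y Z x a a')) +
        EE (fun X Y Z x a a' => ind (ev2 (G ω s) i j k k' X Y Z x a a')))) =
      ∑ ω, ∑ s, (cap (G ω s) + cap (G ω s)) := by
    have pull : ∀ (t : Finset (Fin m)) (f : Fin m → Ω → ι → ℝ),
        ∑ x ∈ t, ∑ ω, ∑ s, f x ω s = ∑ ω, ∑ s, ∑ x ∈ t, f x ω s := fun t f => pull2 t f
    simp only [pull]
    refine Finset.sum_congr rfl fun ω _ => Finset.sum_congr rfl fun s _ => ?_
    simp only [Finset.sum_add_distrib]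
    rw [← cap_eq (G ω s), ← cap_eq2 (G ω s)]
  have h5 : ∑ ω, ∑ s, (cap (G ω s) + cap (G ω s)) ≤ ∑ ω, ∑ s, 2 * (192 * m * κ ω s) := by
    refine Finset.sum_le_sum fun ω _ => Finset.sum_le_sum fun s _ => ?_
    have := cap_le_price (m := m) (Q := Q) hQn (H ω s) (κ ω s) (hκ ω s)
    simp only [hG]
    linarith
  have h6 : ∑ ω, ∑ s, 2 * (192 * m * κ ω s) =
      2 * (192 * m * ((∑ ω, ∑ s, κ ω s) / Fintype.card Ω)) * Fintype.card Ω := by
    simp only [← Finset.mul_sum]
    field_simp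
  rw [h3, h4] at h2
  have h7 := h2.trans (h5.trans (le_of_eq h6))
  exact le_of_mul_le_mul_right h7 hΩ

end

theorem price_nonneg {n : ℕ} (H : Inst n → ℝ) (κ : ℝ) (h : Price H κ) : 0 ≤ κ := by
  rcases h with ⟨rfl, _⟩ | ⟨B, _, _, rfl⟩ | ⟨d, W, _, _, _, rfl⟩
  · exact le_refl 0
  · positivity
  · positivity

theorem one_le_price {n : ℕ} (H : Inst n → ℝ) (κ : ℝ) (h : Price H κ) (I J : Inst n)
    (hI : I.Valid) (hJ : J.Valid) (hf : I.flag = J.flag) (hne : H I ≠ H J) : 1 ≤ κ := by
  rcases h with ⟨rfl, F, hF⟩ | ⟨B, hB, _, rfl⟩ | ⟨d, W, hd, hW, _, rfl⟩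
  · exact absurd (by rw [hF I hI, hF J hJ, hf]) hne
  · exact Real.one_le_rpow (by exact_mod_cast hB) (by norm_num)
  · have h1 : (1 : ℝ) ≤ Real.sqrt d := by
      rw [Real.one_le_sqrt]
      exact_mod_cast hd
    have h2 : (1 : ℝ) ≤ W := by exact_mod_cast hW
    nlinarith

/-- The instances with constant weight `c` of the complete tripartite graph. -/
def constInst (n : ℕ) (c : ℤ) : Inst n where
  flag u v := decide ((u : ℕ) % 3 ≠ (v : ℕ) % 3)
  wt _ _ := c

theorem constInst_valid (n : ℕ) (hn : 1 ≤ n) (c : ℤ) (hc : |c| ≤ 1) : (constInst n c).Valid := by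
  refine ⟨fun i j => ?_, fun i => ?_, fun i j => rfl, fun i j => ?_⟩
  · unfold constInst
    simp only [ne_eq, decide_not, Bool.not_eq_eq_eq_not, eq_comm]
  · unfold constInst
    simp
  · have h1 : (1 : ℤ) ≤ (n : ℤ) ^ 300 := one_le_pow₀ (by exact_mod_cast hn)
    exact hc.trans h1

theorem constInst_tripartite (n : ℕ) (c : ℤ) : Tripartite (constInst n c) := by
  intro u v
  unfold constInst
  simp

theorem constInst_yes (n : ℕ) (hn : 3 ≤ n) : (constInst n 0).Yes := by
  refine ⟨⟨0, by omega⟩, ⟨1, by omega⟩, ⟨2, by omega⟩, ?_⟩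
  unfold constInst
  simp

theorem constInst_no (n : ℕ) : ¬ (constInst n 1).Yes := by
  rintro ⟨i, j, k, _, _, _, _, _, _, h⟩
  unfold constInst at h
  simp at h

/-- The lower bound. -/
theorem lower : LowerStatement := by
  classical
  intro n hn Ω ι _ _ _ H κ hκ hdec
  have hΩ : (0 : ℝ) < Fintype.card Ω := by exact_mod_cast Fintype.card_pos
  by_cases hm : n / 9 < 2
  · set A := (univ.filter fun ω : Ω => (0 < ∑ s, H ω s (constInst n 0) ↔ (constInst n 0).Yes))
      with hA
    set B := (univ.filter fun ω : Ω => (0 < ∑ s, H ω s (constInst n 1) ↔ (constInst n 1).Yes))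
      with hB
    have h1 : 19 * Fintype.card Ω ≤ 20 * A.card := by
      have := hdec _ (constInst_valid n (by omega) 0 (by simp)) (constInst_tripartite n 0)
      unfold Decides at this
      rw [hA]
      convert this
    have h2 : 19 * Fintype.card Ω ≤ 20 * B.card := by
      have := hdec _ (constInst_valid n (by omega) 1 (by simp)) (constInst_tripartite n 1)
      unfold Decides at this
      rw [hB]
      convert this
    have h3 : (A ∪ B).card + (A ∩ B).card = A.card + B.card := Finset.card_union_add_card_inter A B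
    have h4 : (A ∪ B).card ≤ Fintype.card Ω := Finset.card_le_univ _
    have h5 : 9 * Fintype.card Ω ≤ 10 * (A ∩ B).card := by omega
    have h6 : ((A ∩ B).card : ℝ) ≤ ∑ ω, ∑ s, κ ω s := by
      calc ((A ∩ B).card : ℝ) = ∑ ω ∈ A ∩ B, (1 : ℝ) := by simp
        _ ≤ ∑ ω ∈ A ∩ B, ∑ s, κ ω s := by
            refine Finset.sum_le_sum fun ω hω => ?_
            rw [mem_inter, hA, hB, mem_filter, mem_filter] at hω
            have g1 : 0 < ∑ s, H ω s (constInst n 0) := hω.1.2.2 (constInst_yes n hn)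
            have g2 : ¬ 0 < ∑ s, H ω s (constInst n 1) := fun h => constInst_no n (hω.2.2.1 h)
            have g3 : ∃ s, H ω s (constInst n 0) ≠ H ω s (constInst n 1) := by
              by_contra hcon
              push Not at hcon
              apply g2
              rw [← Finset.sum_congr rfl fun s _ => hcon s]
              exact g1
            obtain ⟨s, hs⟩ := g3
            refine (one_le_price (H ω s) (κ ω s) (hκ ω s) _ _ (constInst_valid n (by omega) 0
              (by simp)) (constInst_valid n (by omega) 1 (by simp)) rfl hs).trans ?_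
            exact Finset.single_le_sum (f := fun s => κ ω s)
              (fun s _ => price_nonneg _ _ (hκ ω s)) (Finset.mem_univ s)
        _ ≤ ∑ ω, ∑ s, κ ω s := Finset.sum_le_sum_of_subset_of_nonneg (Finset.subset_univ _)
            fun ω _ _ => Finset.sum_nonneg fun s _ => price_nonneg _ _ (hκ ω s)
    have h5' : (9 : ℝ) * Fintype.card Ω ≤ 10 * (A ∩ B).card := by exact_mod_cast h5
    have h7 : (9 / 10 : ℝ) ≤ (∑ ω, ∑ s, κ ω s) / Fintype.card Ω := by
      rw [le_div_iff₀ hΩ]
      linarith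
    have h8 : n ≤ 17 := by omega
    have h9 : (n : ℝ) ≤ 17 := by exact_mod_cast h8
    have h10 : (n : ℝ) ^ 3 ≤ 17 ^ 3 := pow_le_pow_left₀ (Nat.cast_nonneg n) h9 3
    norm_num at h10 ⊢
    linarith
  · have hQ0 : (n ^ 299 : ℕ) ≠ 0 := pow_ne_zero _ (by omega)
    haveI : NeZero (n ^ 299) := ⟨hQ0⟩
    have h9 : 9 * (n / 9) ≤ n := Nat.mul_div_le n 9
    have hQn : 3 * n ^ 299 ≤ n ^ 300 := by
      calc 3 * n ^ 299 ≤ n * n ^ 299 := Nat.mul_le_mul_right _ hn
        _ = n ^ 300 := by rw [← pow_succ']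
    have h1 := averaged (m := n / 9) (Q := n ^ 299) h9 hQn H κ hκ hdec
    refine Pool.Agent.Helper5.UV.numeric_main n (n / 9) (n ^ 299) _ rfl (by omega)
      (Pool.Agent.Helper5.UV.pow_299 n (by omega)) ?_ h1
    exact div_nonneg (Finset.sum_nonneg fun ω _ => Finset.sum_nonneg fun s _ =>
      price_nonneg _ _ (hκ ω s)) hΩ.le

end Pool.Agent.Helper8.UV
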