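import Mathlib
import Pool.Agent.Helper22.ETModel
import Pool.Agent.Helper8.UV.Defs
import Pool.Agent.Helper8.UV.Main
import Pool.Agent.Helper5.UV.Upper
import Pool.Agent.Helper5.UV.UpperJ

/-!
# Exact Triangle by threshold circuits with unbounded weights

The circuit accepts if the sum of the votes of its voters is positive; the votes are arbitrary real
numbers, so the weights in the top gate are arbitrary. The circuit may be random and has to be
correct with probability at least `19/20` on every valid complete tripartite instance. It knows the
flags; the difficulty is in the weights. Then `n ^ 3` is at most `2 ^ 24` times the expected total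
price of the voters, where the price of a voter is

* `0` if it ignores the weights;
* `B ^ (3/2)` for a decision tree with `B` adaptive probes of weights and arbitrary real outputs;
* `√d * W` for an arbitrary real function of `d` additive threshold gates
  `θ ≤ ∑ e ∈ K, g e (w e)`, where the `g e` are arbitrary real functions of single weights (for
  example arbitrary real linear forms in the weights or in their bits), with together `W` wires.

So a weighted threshold of additive threshold gates, with unbounded weights in both layers, needs
`n ^ 3 / 2 ^ 24` wires in expectation. The other three statements show that this is sharp: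
`2 * n ^ 3` gates with fan-in three, `2 ^ 9 * n ^ 3 / B ^ (3/2)` trees with `B` probes (for every
`B` from `3` to `n ^ 2`), or `2 ^ 9 * n ^ 3 / s ^ (3/2)` functions of `d = O(s log n)` gates with together `d` wires are
correct on all instances.

Idea of the proof: two triangles with one common edge are planted in a random instance; each of the
five weights has two possible values, so that there are sixteen instances; in eight of them exactly
one of the two triangles has the sum zero and in the other eight none. If all mixed third
differences of the sum of the votes along the two triangles vanish, then this sum satisfies a linear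
relation between the sixteen instances which contradicts the signs. So some voter has a non-zero
mixed third difference. The expected number of places where a voter can have one is bounded by its
price: for trees by the Loomis-Whitney inequality along the path, for functions of threshold gates
by the inequality of Kolmogorov and Rogozin for each gate and a weighted Loomis-Whitney inequality.
-/

set_option autoImplicit false

namespace Pool.Agent.Helper8.UVFinal

open Pool.Agent.Helper22.ETModel Pool.Agent.Helper8.VT Pool.Agent.Helper8.UV

/-- Exact Triangle by threshold circuits with unbounded weights: the lower bound for random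
circuits, and three matching upper bounds. -/
theorem result :
    -- the lower bound
    (∀ n : ℕ, 3 ≤ n → ∀ (Ω ι : Type) [Fintype Ω] [Nonempty Ω] [Fintype ι]
      (H : Ω → ι → Inst n → ℝ) (κ : Ω → ι → ℝ), (∀ ω s, Helper8.UV.Price (H ω s) (κ ω s)) →
      (∀ I : Inst n, I.Valid → Tripartite I → Decides H I) →
      (n : ℝ) ^ 3 ≤ 2 ^ 24 * ((∑ ω, ∑ s, κ ω s) / Fintype.card Ω)) ∧
    -- gates with fan-in three
    (∀ n : ℕ, ∃ (N : ℕ) (H : Fin N → Inst n → ℝ), N ≤ 2 * n ^ 3 ∧
      (∀ r, IsJunta 1 3 (H r)) ∧ ∀ I : Inst n, 0 < ∑ r, H r I ↔ I.Yes) ∧
    -- decision trees with `B` probes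
    (∀ n B : ℕ, 3 ≤ B → B ≤ n ^ 2 → ∃ (N : ℕ) (H : Fin N → Inst n → ℝ),
      (N : ℝ) * (B : ℝ) ^ (3 / 2 : ℝ) ≤ 2 ^ 9 * (n : ℝ) ^ 3 ∧ (∀ r, IsProbe B (H r)) ∧
      ∀ I : Inst n, 0 < ∑ r, H r I ↔ I.Yes) ∧
    -- functions of many gates with together as many wires
    (∀ n s : ℕ, 3 ≤ s → s ≤ n ^ 2 → ∃ (N : ℕ) (H : Fin N → Inst n → ℝ),
      (N : ℝ) * (s : ℝ) ^ (3 / 2 : ℝ) ≤ 2 ^ 9 * (n : ℝ) ^ 3 ∧
      (∀ r, IsJunta (s * (302 * (Nat.log 2 n + 1))) (s * (302 * (Nat.log 2 n + 1))) (H r)) ∧
      ∀ I : Inst n, 0 < ∑ r, H r I ↔ I.Yes) :=
  ⟨Helper8.UV.lower, Helper5.UV.gateStatement, Helper5.UV.readerStatement,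
    Helper5.UV.juntaStatement⟩

end Pool.Agent.Helper8.UVFinal
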